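import Mathlib

set_option autoImplicit false

namespace Pool.Agent.Results.MP_c34da8_nt.TwoClasses

open Finset Filter

/-- the monochromatic products with both factors above `f n` -/
def D (f : ℕ → ℝ) (A B : Set ℕ) : Set ℕ :=
  {n | ∃ a a' : ℕ, n = a * a' ∧ ((a ∈ A ∧ a' ∈ A) ∨ (a ∈ B ∧ a' ∈ B)) ∧ f n < (min a a' : ℕ)}

noncomputable section

def ind (p n : ℕ) : ℝ := if p ∣ n then 1 else 0

lemma sum_ind {p K : ℕ} (h : p ∣ K) (hp : 0 < p) : ∑ n ∈ Ioc 0 K, ind p n = K / p := by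
  simp only [ind, sum_boole]
  rw [Nat.Ioc_filter_dvd_card_eq_div, Nat.cast_div h (by exact_mod_cast hp.ne')]

lemma cheb {P : Finset ℕ} (hP : ∀ p ∈ P, p.Prime) {K : ℕ} (hK : ∀ p ∈ P, ∀ q ∈ P, p * q ∣ K)
    {L t : ℝ} (hL : L = ∑ p ∈ P, (p : ℝ)⁻¹) (ht : 0 < t) (S : Finset ℕ) (hS : S ⊆ Ioc 0 K)
    (h : ∀ n ∈ S, t ≤ |∑ p ∈ P, ind p n - L|) : S.card * t ^ 2 ≤ K * L := by
  have e1 : ∑ n ∈ Ioc 0 K, ∑ p ∈ P, ind p n = K * L := by
    rw [sum_comm, hL, mul_sum]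
    exact sum_congr rfl fun p hp => sum_ind ((dvd_mul_right p p).trans (hK p hp p hp)) (hP p hp).pos
  have e2 : ∑ n ∈ Ioc 0 K, (∑ p ∈ P, ind p n) ^ 2 ≤ K * L ^ 2 + K * L := by
    have : ∀ n, (∑ p ∈ P, ind p n) ^ 2 ≤ ∑ p ∈ P, ∑ q ∈ P, ind (p * q) n + ∑ p ∈ P, ind p n := by
      intro n
      rw [sq, sum_mul_sum, ← sum_add_distrib]
      refine sum_le_sum fun p hp => ?_
      have : ind p n = ∑ q ∈ P, if q = p then ind p n else 0 := by simp [hp]
      rw [this, ← sum_add_distrib, ← this]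
      refine sum_le_sum fun q hq => ?_
      by_cases e : q = p
      · subst e
        simp only [ind, if_true]
        split_ifs <;> norm_num
      · simp only [ind, e, if_false, add_zero]
        split_ifs with h1 h2 h3 <;> try norm_num
        exact h3 (Nat.Coprime.mul_dvd_of_dvd_of_dvd
          ((Nat.coprime_primes (hP p hp) (hP q hq)).2 (Ne.symm e)) h1 h2)
    refine (sum_le_sum fun n _ => this n).trans (le_of_eq ?_)
    rw [sum_add_distrib, e1, sum_comm]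
    refine congrArg₂ _ ?_ rfl
    rw [hL, sq, sum_mul_sum, mul_sum]
    refine sum_congr rfl fun p hp => ?_
    rw [sum_comm (s := Ioc 0 K) (t := P), mul_sum]
    refine sum_congr rfl fun q hq => ?_
    rw [sum_ind (hK p hp q hq) (Nat.mul_pos (hP p hp).pos (hP q hq).pos)]
    push_cast
    rw [div_eq_mul_inv, mul_inv]
  calc S.card * t ^ 2 = ∑ _n ∈ S, t ^ 2 := by simp
    _ ≤ ∑ n ∈ S, (∑ p ∈ P, ind p n - L) ^ 2 := sum_le_sum fun n hn => by
        rw [← sq_abs (_ - L)]; exact pow_le_pow_left₀ ht.le (h n hn) 2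
    _ ≤ ∑ n ∈ Ioc 0 K, (∑ p ∈ P, ind p n - L) ^ 2 :=
        sum_le_sum_of_subset_of_nonneg hS fun _ _ _ => sq_nonneg _
    _ = ∑ n ∈ Ioc 0 K, (∑ p ∈ P, ind p n) ^ 2 - 2 * L * ∑ n ∈ Ioc 0 K, ∑ p ∈ P, ind p n +
        K * L ^ 2 := by
        simp only [sub_sq, sum_add_distrib, sum_sub_distrib, mul_sum _ _ (2 * L), sum_const,
          Nat.card_Ioc, Nat.sub_zero, nsmul_eq_mul]
        congr 2
        exact sum_congr rfl fun n _ => by rw [← mul_sum]; ring
    _ ≤ K * L := by rw [e1]; nlinarith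

lemma table (e : ℝ) (he : 0 < e) : ∃ Q : ℕ, 0 < Q ∧ ∀ N : ℕ, Q ∣ N →
    (((Ioc 0 N ×ˢ Ioc 0 N).image fun x => x.1 * x.2).card : ℝ) ≤ e * N ^ 2 := by
  classical
  obtain ⟨P, hP, hL⟩ : ∃ P : Finset ℕ, (∀ p ∈ P, p.Prime) ∧ 82 / e < ∑ p ∈ P, (p : ℝ)⁻¹ := by
    by_contra H
    push Not at H
    refine Nat.Primes.not_summable_one_div (summable_of_sum_le (c := 82 / e)
      (fun p => by positivity) fun s => ?_)
    have := H (s.image Subtype.val) (by
      intro p hp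
      obtain ⟨q, -, rfl⟩ := mem_image.1 hp
      exact q.2)
    rw [sum_image fun _ _ _ _ => Subtype.ext] at this
    simp only [one_div]
    exact this
  obtain ⟨L, hL'⟩ : ∃ L, L = ∑ p ∈ P, (p : ℝ)⁻¹ := ⟨_, rfl⟩
  rw [← hL'] at hL
  have L0 : 0 < L := lt_trans (by positivity) hL
  refine ⟨(∏ p ∈ P, p) * ∏ p ∈ P, p, ?_, fun N hN => ?_⟩
  · have := prod_pos fun p hp => (hP p hp).pos
    positivity
  have k1 : ∀ p ∈ P, ∀ q ∈ P, p * q ∣ N := fun p hp q hq =>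
    (mul_dvd_mul (dvd_prod_of_mem _ hp) (dvd_prod_of_mem _ hq)).trans hN
  let X : ℕ → ℝ := fun n => ∑ p ∈ P, ind p n
  let S1 := (Ioc 0 (N * N)).filter fun n => L / 2 ≤ |X n - L|
  let S2 := (Ioc 0 N).filter fun n => L / 6 ≤ |X n - L|
  let S3 := (Ioc 0 N ×ˢ Ioc 0 N).filter fun x => L / 6 ≤ ∑ p ∈ P, ind p x.1 * ind p x.2
  have h1 := cheb hP (fun p hp q hq => (k1 p hp q hq).mul_left N) hL' (half_pos L0) S1
    (filter_subset _ _) fun n hn => (mem_filter.1 hn).2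
  have h2 := cheb hP k1 hL' (show 0 < L / 6 by positivity) S2
    (filter_subset _ _) fun n hn => (mem_filter.1 hn).2
  have i0 : ∀ p n, 0 ≤ ind p n := fun p n => by unfold ind; split_ifs <;> norm_num
  have h3 : S3.card * (L / 6) ≤ N ^ 2 := by
    calc S3.card * (L / 6) = ∑ _x ∈ S3, L / 6 := by simp
      _ ≤ ∑ x ∈ S3, ∑ p ∈ P, ind p x.1 * ind p x.2 := sum_le_sum fun x hx => (mem_filter.1 hx).2
      _ ≤ ∑ x ∈ Ioc 0 N ×ˢ Ioc 0 N, ∑ p ∈ P, ind p x.1 * ind p x.2 :=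
        sum_le_sum_of_subset_of_nonneg (filter_subset _ _) fun _ _ _ =>
          sum_nonneg fun _ _ => mul_nonneg (i0 _ _) (i0 _ _)
      _ = N ^ 2 * ∑ p ∈ P, ((p : ℝ) ^ 2)⁻¹ := by
        rw [sum_comm, mul_sum]
        refine sum_congr rfl fun p hp => ?_
        rw [sum_product, ← sum_mul_sum,
          sum_ind ((dvd_mul_right p p).trans (k1 p hp p hp)) (hP p hp).pos]
        ring
      _ ≤ N ^ 2 * 1 := by
        refine mul_le_mul_of_nonneg_left ?_ (by positivity)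
        refine (sum_le_sum_of_subset_of_nonneg (t := Ioo 1 (P.sup id + 1)) (fun p hp => ?_)
          fun _ _ _ => by positivity).trans ((sum_Ioo_inv_sq_le 1 _).trans (by norm_num))
        exact mem_Ioo.2 ⟨(hP p hp).one_lt, Nat.lt_succ_of_le (le_sup (f := id) hp)⟩
      _ = N ^ 2 := mul_one _
  have hs : ((Ioc 0 N ×ˢ Ioc 0 N).image fun x => x.1 * x.2) ⊆
      S1 ∪ (S2 ×ˢ Ioc 0 N ∪ Ioc 0 N ×ˢ S2 ∪ S3).image fun x => x.1 * x.2 := by
    intro n hn
    obtain ⟨⟨a, b⟩, hab, rfl⟩ := mem_image.1 hn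
    obtain ⟨ha, hb⟩ := mem_product.1 hab
    by_contra H
    rw [mem_union, not_or] at H
    have g : ∀ {S}, S ⊆ S2 ×ˢ Ioc 0 N ∪ Ioc 0 N ×ˢ S2 ∪ S3 → (a, b) ∉ S := fun h h' =>
      H.2 (mem_image_of_mem _ (h h'))
    have a1 : |X a - L| < L / 6 := not_le.1 fun h =>
      g (subset_union_left.trans subset_union_left) (mem_product.2 ⟨mem_filter.2 ⟨ha, h⟩, hb⟩)
    have a2 : |X b - L| < L / 6 := not_le.1 fun h =>
      g (subset_union_right.trans subset_union_left) (mem_product.2 ⟨ha, mem_filter.2 ⟨hb, h⟩⟩)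
    have a3 : ∑ p ∈ P, ind p a * ind p b < L / 6 := not_le.1 fun h =>
      g subset_union_right (mem_filter.2 ⟨hab, h⟩)
    have a4 : |X (a * b) - L| < L / 2 := not_le.1 fun h => H.1 (mem_filter.2 ⟨by
      rw [mem_Ioc] at ha hb ⊢
      exact ⟨Nat.mul_pos ha.1 hb.1, Nat.mul_le_mul ha.2 hb.2⟩, h⟩)
    have a5 : X a + X b - ∑ p ∈ P, ind p a * ind p b ≤ X (a * b) := by
      simp only [X, ← sum_add_distrib, ← sum_sub_distrib]
      refine sum_le_sum fun p hp => ?_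
      simp only [ind, (hP p hp).dvd_mul]
      by_cases h1 : p ∣ a <;> by_cases h2 : p ∣ b <;> simp [h1, h2]
    rw [abs_lt] at a1 a2 a4
    linarith
  have hc := (card_le_card hs).trans ((card_union_le _ _).trans (add_le_add_right
    (card_image_le.trans ((card_union_le _ _).trans (add_le_add_left (card_union_le _ _) _))) _))
  simp only [card_product, Nat.card_Ioc, Nat.sub_zero] at hc
  refine (Nat.cast_le.2 hc).trans ?_
  push_cast at h1 ⊢
  have N0 : (0 : ℝ) ≤ N := Nat.cast_nonneg N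
  have b1 : S1.card * L ≤ 4 * N ^ 2 := by
    refine le_of_mul_le_mul_right ?_ L0
    nlinarith
  have b2 : S2.card * L ≤ 36 * N := by
    refine le_of_mul_le_mul_right ?_ L0
    nlinarith
  have b3 := mul_le_mul_of_nonneg_right b2 N0
  rw [div_lt_iff₀ he] at hL
  refine le_of_mul_le_mul_right ?_ L0
  nlinarith [sq_nonneg (N : ℝ)]

end

theorem result (f : ℕ → ℝ) (hf : Tendsto f atTop atTop) :
    ∃ A B : Set ℕ, Disjoint A B ∧ A ∪ B = {n | 0 < n} ∧
      liminf (fun M : ℕ => ((D f A B ∩ Set.Icc 1 M).ncard : ℝ) / M) atTop = 0 := by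
  classical
  have step : ∀ k n : ℕ, ∃ N b : ℕ, n * n < N ∧ (∀ x, b ≤ x → ((n * n : ℕ) : ℝ) ≤ f x) ∧
      (b : ℝ) ≤ 1 / (k + 1) * N ^ 2 ∧
      (((Ioc 0 N ×ˢ Ioc 0 N).image fun x => x.1 * x.2).card : ℝ) ≤ 1 / (k + 1) * N ^ 2 := by
    intro k n
    obtain ⟨Q, hQ, h⟩ := table (1 / (k + 1)) (by positivity)
    obtain ⟨b, hb⟩ := eventually_atTop.1 (hf.eventually_ge_atTop ((n * n : ℕ) : ℝ))
    have h1 : n * n + 1 + b * (k + 1) ≤ Q * (n * n + 1 + b * (k + 1)) := Nat.le_mul_of_pos_left _ hQ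
    refine ⟨_, b, by omega, hb, ?_, h _ (dvd_mul_right Q (n * n + 1 + b * (k + 1)))⟩
    generalize Q * (n * n + 1 + b * (k + 1)) = N at h1
    rw [one_div, ← div_eq_inv_mul, le_div_iff₀ (by positivity)]
    have : b * (k + 1) ≤ N ^ 2 := (show b * (k + 1) ≤ N by omega).trans (Nat.le_self_pow two_ne_zero N)
    exact_mod_cast this
  choose F b f1 f2 f3 f4 using step
  let N : ℕ → ℕ := fun k => Nat.rec 1 (fun k n => F k n) k
  have N1 : ∀ k, N k * N k < N (k + 1) := fun k => f1 k (N k)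
  have N2 : StrictMono N := strictMono_nat_of_lt_succ fun k => (Nat.le_mul_self _).trans_lt (N1 k)
  let B : Set ℕ := {a | ∃ k, N k < a ∧ a ≤ N k * N k}
  refine ⟨{n | 0 < n} \ B, B, Set.disjoint_sdiff_left,
    Set.sdiff_union_of_subset fun a ⟨k, h, _⟩ => Nat.zero_lt_of_lt h, le_antisymm ?_ ?_⟩
  · refine le_of_forall_pos_le_add fun e he => liminf_le_of_frequently_le ?_
      (isBoundedUnder_of ⟨0, fun M => by positivity⟩)
    rw [frequently_atTop]
    intro a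
    obtain ⟨k0, hk⟩ := exists_nat_gt (2 / e)
    obtain ⟨k, k1, k2⟩ : ∃ k, k0 ≤ k ∧ a ≤ k := ⟨max k0 a, le_max_left _ _, le_max_right _ _⟩
    have p1 := N1 k
    refine ⟨N (k + 1) * N (k + 1), ?_, ?_⟩
    · have := N2.id_le (k + 1)
      have := Nat.le_mul_self (N (k + 1))
      simp only [id] at *
      omega
    have hs : D f ({n | 0 < n} \ B) B ∩ Set.Icc 1 (N (k + 1) * N (k + 1)) ⊆ ↑(range (b k (N k)) ∪
        (Ioc 0 (N (k + 1)) ×ˢ Ioc 0 (N (k + 1))).image fun x => x.1 * x.2) := by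
      rintro _ ⟨⟨x, y, rfl, h1, h2⟩, -, h3⟩
      rw [mem_coe, mem_union, mem_range]
      refine (lt_or_ge _ _).imp_right fun h => ?_
      have h4 : N k * N k < min x y := by exact_mod_cast (f2 k (N k) _ h).trans_lt h2
      rw [lt_min_iff] at h4
      rcases h1 with ⟨h5, h6⟩ | ⟨h5, h6⟩
      · refine mem_image.2 ⟨(x, y), mem_product.2 ⟨mem_Ioc.2 ⟨h5.1, not_lt.1 fun h => h5.2
          ⟨k + 1, h, (Nat.le_mul_of_pos_right x h6.1).trans h3⟩⟩, mem_Ioc.2 ⟨h6.1, not_lt.1 fun h =>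
          h6.2 ⟨k + 1, h, (Nat.le_mul_of_pos_left y h5.1).trans h3⟩⟩⟩, rfl⟩
      · have g : ∀ z ∈ B, N k * N k < z → N (k + 1) < z := by
          rintro z ⟨j, a1, a2⟩ hz
          refine (N2.monotone (Nat.succ_le_of_lt (not_le.1 fun hj => ?_))).trans_lt a1
          have := Nat.mul_le_mul (N2.monotone hj) (N2.monotone hj)
          omega
        exact absurd h3 (not_le.2 (Nat.mul_lt_mul'' (g x h5 h4.1) (g y h6 h4.2)))
    have hc := (Set.ncard_le_ncard hs).trans (Set.ncard_coe_finset _).le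
    have hc2 : ((D f ({n | 0 < n} \ B) B ∩ Set.Icc 1 (N (k + 1) * N (k + 1))).ncard : ℝ) ≤
        1 / (k + 1) * N (k + 1) ^ 2 + 1 / (k + 1) * N (k + 1) ^ 2 := by
      refine (Nat.cast_le.2 (hc.trans (card_union_le _ _))).trans ?_
      rw [card_range, Nat.cast_add]
      exact add_le_add (f3 k (N k)) (f4 k (N k))
    have p2 : (0 : ℝ) < N (k + 1) := by exact_mod_cast Nat.zero_lt_of_lt p1
    rw [zero_add, div_le_iff₀ (by push_cast; positivity)]
    have p3 : 1 / ((k : ℝ) + 1) ≤ e / 2 := by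
      have : (k0 : ℝ) ≤ k := by exact_mod_cast k1
      rw [div_lt_iff₀ he] at hk
      rw [div_le_div_iff₀ (by positivity) (by norm_num)]
      nlinarith
    push_cast
    nlinarith [mul_le_mul_of_nonneg_right p3 (sq_nonneg (N (k + 1) : ℝ))]
  · refine le_liminf_of_le (isCoboundedUnder_ge_of_le _ (x := 1) fun M => ?_)
      (Eventually.of_forall fun M => by positivity)
    refine div_le_one_of_le₀ (Nat.cast_le.2 ?_) (Nat.cast_nonneg _)
    simpa using Set.ncard_le_ncard (Set.inter_subset_right (s := D f _ B)) (Set.finite_Icc 1 M)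

end Pool.Agent.Results.MP_c34da8_nt.TwoClasses
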